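import Pool.Agent.Helper2_Pak.StmtsT
import Pool.Agent.Helper91_Pack.T3

/-!
# T3: generators for the words of numbers with given digits
-/

namespace Pool.Agent.Helper2_Pak.H56

open Pool.Agent.Helper2_Pack (Letter CL bits)
open Pool.Agent.Helper53_CookLevin Pool.Agent.Helper53_Chan
open Pool.Agent.Helper91_Pack (NG NG.const NG.add NG.mul NG.up NG.len0 tlt NG.bits)

theorem scan_take {C : Type} (n : ℕ) : ∀ (p l : List C),
    scan (fun q c => if q.length < n then [c] else []) p l = l.take (n - p.length)
  | p, [] => by simp [scan]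
  | p, c :: l => by
    rw [scan, scan_take n (p ++ [c]) l, List.length_append, List.length_singleton]
    by_cases h : p.length < n
    · rw [if_pos h]
      obtain ⟨m, hm⟩ : ∃ m, n - p.length = m + 1 := ⟨n - p.length - 1, by omega⟩
      have h1 : n - (p.length + 1) = m := by omega
      rw [hm, List.take_succ_cons, h1]
      rfl
    · rw [if_neg h]
      have h1 : n - p.length = 0 := by omega
      have h2 : n - (p.length + 1) = 0 := by omega
      rw [h1, h2]
      simp

theorem ptake {k : ℕ} {F : (Fin k → List CL) → List CL} {n : (Fin k → List CL) → ℕ}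
    (hF : PGen k F) (hn : NG k n) : PGen k (fun ρ => (F ρ).take (n ρ)) := by
  classical
  refine PGen.congr (PGen.loopG hF (K := fun c p ρ => if p.length < n ρ then [c] else [])
    (fun c => Test.ite (tlt NG.len0 (NG.up hn)) (PGen.const [c]) (PGen.const []))) (fun ρ => ?_)
  rw [scan_take]
  simp

/-- replication of a letter -/
theorem prep {k : ℕ} {n : (Fin k → List CL) → ℕ} (hn : NG k n) (a : CL) :
    PGen k (fun ρ => List.replicate (n ρ) a) := by
  refine PGen.congr (PGen.cnt (fun _ => true) a hn) (fun ρ => ?_)
  unfold Helper53_Chan.cnt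
  rw [List.filter_eq_self.2 (fun _ _ => rfl), List.length_replicate]

theorem pfix {k : ℕ} {n e : (Fin k → List CL) → ℕ} (hn : NG k n) (he : NG k e) :
    PGen k (fun ρ => (fixN (n ρ) (e ρ)).map (Sum.inr : Letter → CL)) := by
  refine PGen.congr (ptake (PGen.append (NG.bits he) (prep hn (Sum.inr Letter.zero))) hn)
    (fun ρ => ?_)
  unfold fixN
  rw [List.map_take, List.map_append, List.map_replicate]

/-- T3 -/
theorem t3 : T3Stmt := by
  intro k m d hm hd
  have hf : ∀ j, j < 9 → PGen k (fun ρ => (fixN (m ρ) (d ρ j)).map (Sum.inr : Letter → CL)) :=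
    fun j hj => pfix hm (hd j hj)
  have hb : PGen k (fun ρ => (bits (d ρ 0)).map (Sum.inr : Letter → CL)) :=
    NG.bits (hd 0 (by norm_num))
  have hz : PGen k (fun ρ => List.replicate (8 * m ρ + 8) (Sum.inr Letter.zero : CL)) :=
    prep (NG.add (NG.mul (NG.const 8) hm) (NG.const 8)) _
  have h1 := PGen.append (PGen.const (m := k) [(Sum.inr Letter.plus : CL)])
    (PGen.append (PGen.append (PGen.append (PGen.append (PGen.append (PGen.append (PGen.append
      (PGen.append (hf 8 (by norm_num)) (hf 7 (by norm_num))) (hf 6 (by norm_num)))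
      (hf 5 (by norm_num))) (hf 4 (by norm_num))) (hf 3 (by norm_num))) (hf 2 (by norm_num)))
      (hf 1 (by norm_num))) hb)
  have h2 := PGen.append h1 (PGen.append (PGen.const (m := k) [(Sum.inr Letter.slash : CL)])
    (PGen.append hz (PGen.const (m := k) [(Sum.inr Letter.one : CL), Sum.inr Letter.comma])))
  refine PGen.congr h2 (fun ρ => ?_)
  unfold digWord
  simp only [List.map_append, List.map_cons, List.map_replicate, List.map_nil,
    List.nil_append, List.cons_append]

end Pool.Agent.Helper2_Pak.H56
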