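import Pool.Agent.Helper2_Pak.StmtsT

/-!
# T6: the heights of floors and ceilings in terms of digits
-/

namespace Pool.Agent.Helper2_Pak.H56

open Pool.Agent.Helper2_Pack (SInst Con)

/-- the number of special tiles of a column in the main rows -/
theorem l_le (h0 : U0Stmt) (S : SInst) (hS : S.WF) (c : ℕ) : (lay S).l c ≤ nR S := by
  obtain ⟨h1, h2, -⟩ := h0 S hS
  change ((blk S (c / 7)).col (nR S) (c % 7)).2 ≤ nR S
  have hlt : c % 7 < 7 := Nat.mod_lt _ (by norm_num)
  generalize c % 7 = k at hlt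
  rcases hb : blk S (c / 7) with _ | ⟨right, a, a', a'', o⟩ | ⟨i, j⟩
  · exact Nat.zero_le _
  · obtain ⟨ha, ha', ha'', -⟩ := h1 _ _ _ _ _ _ hb
    cases right <;> interval_cases k <;> simp only [Blk.col] <;> omega
  · obtain ⟨hij, hj, -⟩ := h2 _ _ _ hb
    unfold nR
    interval_cases k <;> simp only [Blk.col] <;> omega

theorem card_spc (G : Lay) (c : ℕ) (hl : G.l c ≤ G.n) :
    ((Finset.range G.N).filter (fun r => G.spc c r = true)).card = G.l c := by
  have h : (Finset.range G.N).filter (fun r => G.spc c r = true) =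
      (Finset.range (G.l c)).image (fun i => 2 * i + 1) := by
    ext r
    rw [Finset.mem_filter, Finset.mem_range, Finset.mem_image]
    simp only [Finset.mem_range]
    unfold Lay.spc Lay.N
    constructor
    · rintro ⟨h1, h2⟩
      rw [if_pos h1] at h2
      simp only [Bool.and_eq_true, decide_eq_true_eq] at h2
      exact ⟨r / 2, by omega, by omega⟩
    · rintro ⟨i, hi, rfl⟩
      have h1 : 2 * i + 1 < 2 * G.n + 1 := by omega
      refine ⟨h1, ?_⟩
      rw [if_pos h1]
      simp only [Bool.and_eq_true, decide_eq_true_eq]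
      omega
  rw [h, Finset.card_image_of_injective _ (fun a b hab => by simpa using hab), Finset.card_range]

theorem fl_eq (G : Lay) (t : ℚ) (c : ℕ) (hl : G.l c ≤ G.n) :
    G.fl t c = -((G.N : ℚ) - G.l c) * t ^ 2 - G.l c * t ^ 4 -
      G.sg c * ((G.S1 c + G.l c / 2) * t ^ 6 + G.S2 c * t ^ 7) := by
  have hnh : ∀ r, G.nh t c r = (1 + t ^ 2) + (if G.spc c r = true then
      (t ^ 4 - t ^ 2 + (G.sg c : ℚ) * (t ^ 6 * ((G.dr c r).1 : ℚ) + t ^ 7 * ((G.dr c r).2 : ℚ) +
        t ^ 6 / 2)) else 0) := by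
    intro r
    unfold Lay.nh Lay.D
    split_ifs
    · ring
    · ring
  have hsum : ∑ r ∈ Finset.range G.N, G.nh t c r = G.N * (1 + t ^ 2) + (G.l c : ℚ) *
      (t ^ 4 - t ^ 2) + (G.sg c : ℚ) * (t ^ 6 * (G.S1 c : ℚ) + t ^ 7 * (G.S2 c : ℚ) +
        (G.l c : ℚ) * (t ^ 6 / 2)) := by
    have e1 : ∑ r ∈ (Finset.range G.N).filter (fun r => G.spc c r = true),
        (t ^ 4 - t ^ 2 + (G.sg c : ℚ) * (t ^ 6 * ((G.dr c r).1 : ℚ) + t ^ 7 * ((G.dr c r).2 : ℚ) +
          t ^ 6 / 2)) = (G.l c : ℚ) * (t ^ 4 - t ^ 2) + (G.sg c : ℚ) * (t ^ 6 * (G.S1 c : ℚ) +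
          t ^ 7 * (G.S2 c : ℚ) + (G.l c : ℚ) * (t ^ 6 / 2)) := by
      rw [Finset.sum_add_distrib, ← Finset.mul_sum, Finset.sum_add_distrib, Finset.sum_add_distrib,
        ← Finset.mul_sum, ← Finset.mul_sum, Finset.sum_const, Finset.sum_const, card_spc G c hl]
      unfold Lay.S1 Lay.S2
      push_cast
      simp only [nsmul_eq_mul]
    rw [Finset.sum_congr rfl (fun r _ => hnh r), Finset.sum_add_distrib, ← Finset.sum_filter, e1,
      Finset.sum_const, Finset.card_range, nsmul_eq_mul]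
    ring
  unfold Lay.fl
  rw [hsum]
  ring

/-- the local rows of a column -/
theorem sum_loc (G : Lay) (t : ℚ) (c : ℕ) (sp : ℕ → Bool) (h : ℕ) (hh : (G.kd c).h = h)
    (hsp : ∀ j, (G.kd c).sp j = sp j) (A : ℚ)
    (hA : ∀ r, G.N ≤ r → r < G.top c → G.spc c r = true → G.nh t c r = A) :
    ∑ r ∈ Finset.Ico G.N (G.top c), G.nh t c r =
      ∑ i ∈ Finset.range h, (if sp (i + 1) = true then A else 1 + t ^ 2) := by
  have ht : G.top c = G.N + h := by
    unfold Lay.top
    rw [hh]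
  rw [ht, Finset.sum_Ico_eq_sum_range, Nat.add_sub_cancel_left]
  refine Finset.sum_congr rfl (fun i hi => ?_)
  have hi' := Finset.mem_range.1 hi
  have h1 : G.spc c (G.N + i) = sp (i + 1) := by
    unfold Lay.spc
    rw [if_neg (by omega)]
    have : G.N + i - 2 * G.n = i + 1 := by
      unfold Lay.N
      omega
    rw [this, hsp]
  by_cases hs : sp (i + 1) = true
  · rw [if_pos hs]
    exact hA _ (by omega) (by rw [ht]; omega) (h1.trans hs)
  · rw [if_neg hs]
    unfold Lay.nh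
    rw [if_neg (by rw [h1]; exact hs)]

/-- T6 -/
theorem t6 (h0 : U0Stmt) (h4 : U4Stmt) : T6Stmt := by
  intro S t c hS hc
  obtain ⟨hw, hloc⟩ := h4 S hS
  refine ⟨?_, ?_, ?_, ?_⟩
  · exact fl_eq (lay S) t c (l_le h0 S hS c)
  · have hdr : ∀ r, (lay S).N ≤ r → r < (lay S).top c → (lay S).spc c r = true →
        (lay S).nh t c r = 1 + t ^ 4 + ((lay S).sg c : ℚ) * (t ^ 4 * ((match (lay S).kd c with
          | .V1 => t ^ 2 + 2 * t ^ 3
          | .V2 => t ^ 2 + 2 * t ^ 3
          | .V3 _ => t ^ 2 + 2 * t ^ 3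
          | .Uv => t ^ 2 + 2 * t ^ 3
          | _ => 0) + t ^ 2 / 2)) := by
      intro r h1 h2 h3
      have hp : (lay S).pres c r = true := by
        unfold Lay.pres
        simp only [Bool.and_eq_true, decide_eq_true_eq]
        exact ⟨hc, h2⟩
      have h5 := hloc c r h1 hp h3
      unfold Lay.nh Lay.D
      rw [if_pos h3, h5]
      cases (lay S).kd c <;> simp
    unfold Lay.ce
    have hsg : ((lay S).sg c : ℚ) = if ((lay S).kd c).isW = true then -1 else 1 := by
      unfold Lay.sg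
      split_ifs <;> simp
    rw [hsg] at hdr
    generalize hk : (lay S).kd c = kk at hdr
    cases kk <;>
      rw [sum_loc (lay S) t c _ _ (by rw [hk]) (fun j => by rw [hk]) _ hdr] <;>
      simp [Kind.h, Kind.sp, Kind.isL, Kind.isR, Kind.off, Kind.isW, Finset.sum_range_succ] <;>
      ring
  · intro X r _ h1 h2 h3
    have := hw X r h1 h2 h3
    unfold Lay.rw Lay.D
    rw [this]
    push_cast
    ring
  · intro X r _ _
    unfold Lay.rw Lay.D
    ring

end Pool.Agent.Helper2_Pak.H56
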